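import Mathlib
import Pool.Agent.X119.GrayD

set_option autoImplicit false

namespace Pool.Agent.Results.MP_cc494f_an.GrayTakagi

open MeasureTheory Set

/-- `φ(x) = dist(x, ℤ)`. -/
noncomputable def phi (x : ℝ) : ℝ := |x - round x|

/-- The Rademacher functions `r_n(x) = (-1)^⌊2^n x⌋`. -/
noncomputable def rademacher (n : ℕ) (x : ℝ) : ℝ := (-1 : ℝ) ^ ⌊(2:ℝ) ^ n * x⌋

/-- The Gray Takagi function `∑ 2^{-n} r_n(x) φ(2^n x)`. -/
noncomputable def grayTakagi (x : ℝ) : ℝ :=
  ∑' n : ℕ, ((2:ℝ) ^ n)⁻¹ * rademacher n x * phi ((2:ℝ) ^ n * x)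

lemma grayTakagi_eq : grayTakagi = Pool.Agent.X119.Gray.f := by
  ext x
  unfold grayTakagi Pool.Agent.X119.Gray.f
  congr 1
  ext n
  unfold rademacher Pool.Agent.X119.Gray.g
  rw [Pool.Agent.X119.Gray.sg_zpow, inv_pow, mul_assoc]
  rfl

/-- **Q2.** Almost every level set of the Gray Takagi function is finite; moreover its occupation
measure is singular with respect to Lebesgue measure. -/
theorem result :
    (∀ᵐ y : ℝ, {x : ℝ | x ∈ Icc (0:ℝ) 1 ∧ grayTakagi x = y}.Finite) ∧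
    Measure.MutuallySingular (Measure.map grayTakagi (volume.restrict (Icc (0:ℝ) 1))) volume := by
  rw [grayTakagi_eq]
  refine ⟨Pool.Agent.X119.Gray.finite_level, ?_⟩
  change Measure.MutuallySingular Pool.Agent.X119.Gray.mu volume
  rw [← Measure.rnDeriv_eq_zero]
  exact Pool.Agent.X119.Gray.h_zero

end Pool.Agent.Results.MP_cc494f_an.GrayTakagi
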